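import Pool.Agent.Lib.MP_e46b3e_an.Core

/-!
# MP_e46b3e_an: the space `F_{d,q}`, the worst-case error and `N(ε, d)` written out literally
-/

set_option autoImplicit false

open MeasureTheory
open scoped ENNReal

namespace Pool.Agent.Lib.MP_e46b3e_an

/-- Lebesgue measure on the cube `[0,1]^d`. -/
noncomputable def cube (d : ℕ) : Measure (Fin d → ℝ) := volume.restrict (Set.Icc 0 1)

/-- The function `f(x) = ∫_{[0,x]} g(t) dt`. -/
noncomputable def prim {d : ℕ} (g : (Fin d → ℝ) → ℝ) (x : Fin d → ℝ) : ℝ :=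
  ∫ t in Set.Icc 0 x, g t

/-- A quadrature formula with `N` nodes in `[0,1]^d` and real weights. -/
structure Quad (d N : ℕ) where
  x : Fin N → Fin d → ℝ
  mem : ∀ i, x i ∈ Set.Icc (0 : Fin d → ℝ) 1
  a : Fin N → ℝ

/-- `A(f) = ∑ a_i f(x_i)`. -/
noncomputable def Quad.eval {d N : ℕ} (A : Quad d N) (f : (Fin d → ℝ) → ℝ) : ℝ :=
  ∑ i, A.a i * f (A.x i)

/-- The worst-case error `e(A)`: the supremum of `|∫ f - A(f)|` over the `f = prim g` with
`‖g‖_q ≤ 1`. -/
noncomputable def wce {d N : ℕ} (q : ℝ) (A : Quad d N) : ℝ≥0∞ :=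
  ⨆ (g : (Fin d → ℝ) → ℝ) (_ : MemLp g (ENNReal.ofReal q) (cube d))
    (_ : eLpNorm g (ENNReal.ofReal q) (cube d) ≤ 1),
    ENNReal.ofReal |∫ x, prim g x ∂(cube d) - A.eval (prim g)|

/-- The initial error `(p+1)^(-d/p)`. -/
noncomputable def e0 (p : ℝ) (d : ℕ) : ℝ := (p + 1) ^ (-(d : ℝ) / p)

/-- `N(ε, d)`: the least number of nodes of a formula with `e(A) ≤ ε e_0(d)`
(`∞` if there is none). -/
noncomputable def NN (p q ε : ℝ) (d : ℕ) : ℕ∞ :=
  sInf {k : ℕ∞ | ∃ (N : ℕ) (A : Quad d N), k = N ∧ wce q A ≤ ENNReal.ofReal (ε * e0 p d)}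

/-- The local discrepancy `∏ (1 - t_j) - ∑ a_i 1[x_i ≥ t]`. -/
noncomputable def disc {d N : ℕ} (A : Quad d N) (t : Fin d → ℝ) : ℝ :=
  ∏ j, (1 - t j) - ∑ i, A.a i * Set.indicator (Set.Iic (A.x i)) (fun _ => (1 : ℝ)) t

namespace OwnM

instance (d : ℕ) : IsFiniteMeasure (cube d) := by
  unfold cube
  exact ⟨by
    rw [Measure.restrict_apply_univ]
    exact isCompact_Icc.measure_lt_top⟩

lemma ae_mem (d : ℕ) : ∀ᵐ t ∂(cube d), t ∈ Set.Icc (0 : Fin d → ℝ) 1 :=
  ae_restrict_mem measurableSet_Icc

lemma prim_eq {d : ℕ} (g : (Fin d → ℝ) → ℝ) {x : Fin d → ℝ} (hx : x ∈ Set.Icc (0 : Fin d → ℝ) 1) :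
    prim g x = ∫ t, Set.indicator (Set.Iic x) (fun _ => (1 : ℝ)) t * g t ∂(cube d) := by
  unfold prim cube
  have h1 : ∀ t, Set.indicator (Set.Iic x) (fun _ => (1 : ℝ)) t * g t =
      Set.indicator (Set.Iic x) g t := by
    intro t
    by_cases h : t ∈ Set.Iic x
    · rw [Set.indicator_of_mem h, Set.indicator_of_mem h, one_mul]
    · rw [Set.indicator_of_notMem h, Set.indicator_of_notMem h, zero_mul]
  simp_rw [h1]
  rw [integral_indicator measurableSet_Iic, Measure.restrict_restrict measurableSet_Iic]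
  congr 2
  ext t
  constructor
  · intro h
    exact ⟨h.2, h.1, h.2.trans hx.2⟩
  · intro h
    exact ⟨h.2.1, h.1⟩

lemma volume_above {d : ℕ} {t : Fin d → ℝ} (ht : t ∈ Set.Icc (0 : Fin d → ℝ) 1) :
    ∫ x, Set.indicator (Set.Iic x) (fun _ => (1 : ℝ)) t ∂(cube d) = ∏ j, (1 - t j) := by
  have h1 : ∀ x : Fin d → ℝ, Set.indicator (Set.Iic x) (fun _ => (1 : ℝ)) t =
      Set.indicator (Set.Ici t) (fun _ => (1 : ℝ)) x := by
    intro x
    by_cases h : t ≤ x
    · rw [Set.indicator_of_mem (Set.mem_Iic.2 h), Set.indicator_of_mem (Set.mem_Ici.2 h)]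
    · rw [Set.indicator_of_notMem (fun h' => h (Set.mem_Iic.1 h')),
        Set.indicator_of_notMem (fun h' => h (Set.mem_Ici.1 h'))]
  simp_rw [h1]
  unfold cube
  rw [integral_indicator measurableSet_Ici, Measure.restrict_restrict measurableSet_Ici]
  have h2 : Set.Ici t ∩ Set.Icc 0 1 = Set.Icc t 1 := by
    ext x
    constructor
    · intro h
      exact ⟨h.1, h.2.2⟩
    · intro h
      exact ⟨h.1, ht.1.trans h.1, h.2⟩
  rw [h2, setIntegral_const, smul_eq_mul, mul_one, Measure.real, Real.volume_Icc_pi_toReal ht.2]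
  rfl

lemma integral_prim {d : ℕ} {g : (Fin d → ℝ) → ℝ} (hg : Integrable g (cube d)) :
    ∫ x, prim g x ∂(cube d) = ∫ t, (∏ j, (1 - t j)) * g t ∂(cube d) := by
  have h1 : ∫ x, prim g x ∂(cube d) =
      ∫ x, ∫ t, Set.indicator (Set.Iic x) (fun _ => (1 : ℝ)) t * g t ∂(cube d) ∂(cube d) := by
    apply integral_congr_ae
    filter_upwards [ae_mem d] with x hx
    exact prim_eq g hx
  rw [h1, integral_integral_swap]
  · apply integral_congr_ae
    filter_upwards [ae_mem d] with t ht
    rw [integral_mul_const, volume_above ht]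
  · have h2 : (Function.uncurry fun (x t : Fin d → ℝ) =>
        Set.indicator (Set.Iic x) (fun _ => (1 : ℝ)) t * g t) =
        Set.indicator {z : (Fin d → ℝ) × (Fin d → ℝ) | z.2 ≤ z.1} (fun z => g z.2) := by
      funext z
      obtain ⟨x, t⟩ := z
      simp only [Function.uncurry_apply_pair]
      by_cases h : t ≤ x
      · rw [Set.indicator_of_mem (Set.mem_Iic.2 h), Set.indicator_of_mem (show (x, t) ∈ _ from h),
          one_mul]
      · rw [Set.indicator_of_notMem (fun h' => h (Set.mem_Iic.1 h')),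
          Set.indicator_of_notMem (show (x, t) ∉ _ from h), zero_mul]
    rw [h2]
    apply (hg.comp_snd (cube d)).indicator
    have h3 : {z : (Fin d → ℝ) × (Fin d → ℝ) | z.2 ≤ z.1} =
        ⋂ i, {z : (Fin d → ℝ) × (Fin d → ℝ) | z.2 i ≤ z.1 i} := by
      ext z
      simp [Pi.le_def]
    rw [h3]
    exact MeasurableSet.iInter fun i => measurableSet_le
      ((measurable_pi_apply i).comp measurable_snd) ((measurable_pi_apply i).comp measurable_fst)

section disc

variable {d N : ℕ} (A : Quad d N)

lemma ind_meas (i : Fin N) :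
    Measurable (fun t => Set.indicator (Set.Iic (A.x i)) (fun _ => (1 : ℝ)) t) :=
  measurable_const.indicator measurableSet_Iic

lemma prod_meas : Measurable (fun t : Fin d → ℝ => ∏ j, (1 - t j)) :=
  Finset.measurable_prod _ fun j _ => measurable_const.sub (measurable_pi_apply j)

lemma disc_meas : Measurable (disc A) := by
  unfold disc
  exact prod_meas.sub (Finset.measurable_sum _ fun i _ => (ind_meas A i).const_mul (A.a i))

lemma ind_bdd (i : Fin N) (t : Fin d → ℝ) :
    |Set.indicator (Set.Iic (A.x i)) (fun _ => (1 : ℝ)) t| ≤ 1 := by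
  by_cases h : t ∈ Set.Iic (A.x i)
  · simp [Set.indicator_of_mem h]
  · simp [Set.indicator_of_notMem h]

lemma prod_bdd {t : Fin d → ℝ} (ht : t ∈ Set.Icc (0 : Fin d → ℝ) 1) :
    |∏ j, (1 - t j)| ≤ 1 := by
  rw [Finset.abs_prod]
  apply Finset.prod_le_one (fun j _ => abs_nonneg _)
  intro j _
  have h1 : 0 ≤ t j := ht.1 j
  have h2 : t j ≤ 1 := ht.2 j
  rw [abs_of_nonneg (by linarith)]
  linarith

lemma disc_bdd : ∀ᵐ t ∂(cube d), ‖disc A t‖ ≤ 1 + ∑ i, |A.a i| := by
  filter_upwards [ae_mem d] with t ht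
  rw [Real.norm_eq_abs]
  have e2 : |∑ i, A.a i * Set.indicator (Set.Iic (A.x i)) (fun _ => (1 : ℝ)) t| ≤
      ∑ i, |A.a i| := by
    apply (Finset.abs_sum_le_sum_abs _ _).trans
    apply Finset.sum_le_sum
    intro j _
    rw [abs_mul]
    calc |A.a j| * _ ≤ |A.a j| * 1 := mul_le_mul_of_nonneg_left (ind_bdd A j t) (abs_nonneg _)
      _ = |A.a j| := mul_one _
  unfold disc
  calc _ ≤ |∏ j, (1 - t j)| +
        |∑ i, A.a i * Set.indicator (Set.Iic (A.x i)) (fun _ => (1 : ℝ)) t| := abs_sub _ _
    _ ≤ _ := add_le_add (prod_bdd ht) e2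

lemma disc_memLp (r : ℝ≥0∞) : MemLp (disc A) r (cube d) :=
  MemLp.of_bound (disc_meas A).aestronglyMeasurable _ (disc_bdd A)

lemma error_eq {g : (Fin d → ℝ) → ℝ} (hg : Integrable g (cube d)) :
    ∫ x, prim g x ∂(cube d) - A.eval (prim g) = ∫ t, g t * disc A t ∂(cube d) := by
  have hi : ∀ i, Integrable (fun t =>
      Set.indicator (Set.Iic (A.x i)) (fun _ => (1 : ℝ)) t * g t) (cube d) := fun i =>
    hg.bdd_mul (c := 1) (ind_meas A i).aestronglyMeasurable
      (Filter.Eventually.of_forall fun t => by simpa using ind_bdd A i t)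
  have hp : Integrable (fun t : Fin d → ℝ => (∏ j, (1 - t j)) * g t) (cube d) :=
    hg.bdd_mul (c := 1) prod_meas.aestronglyMeasurable
      (by
        filter_upwards [ae_mem d] with t ht
        rw [Real.norm_eq_abs]
        exact prod_bdd ht)
  have h1 : ∀ t, g t * disc A t = (∏ j, (1 - t j)) * g t -
      ∑ i, A.a i * (Set.indicator (Set.Iic (A.x i)) (fun _ => (1 : ℝ)) t * g t) := by
    intro t
    unfold disc
    rw [mul_sub, Finset.mul_sum]
    congr 1
    · ring
    · exact Finset.sum_congr rfl fun i _ => by ring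
  simp_rw [h1]
  rw [integral_sub hp (integrable_finsetSum _ fun i _ => (hi i).const_mul (A.a i)),
    integral_finsetSum _ fun i _ => (hi i).const_mul (A.a i), integral_prim hg]
  congr 1
  unfold Quad.eval
  refine Finset.sum_congr rfl fun i _ => ?_
  rw [integral_const_mul, prim_eq g (A.mem i)]

/-- the worst-case error is the `L_p` norm of the local discrepancy -/
lemma wce_eq {p q : ℝ} (hpq : p.HolderConjugate q) :
    wce q A = eLpNorm (disc A) (ENNReal.ofReal p) (cube d) := by
  have hp1 : 1 < p := hpq.lt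
  have hq1 : 1 < q := hpq.symm.lt
  have hp0 : 0 < p := by linarith
  have hq0 : 0 < q := by linarith
  have hpe : ENNReal.ofReal p ≠ 0 := by simpa using hp0
  have hqe : ENNReal.ofReal q ≠ 0 := by simpa using hq0
  have hpr : (ENNReal.ofReal p).toReal = p := ENNReal.toReal_ofReal hp0.le
  have hqr : (ENNReal.ofReal q).toReal = q := ENNReal.toReal_ofReal hq0.le
  have hq1e : (1 : ℝ≥0∞) ≤ ENNReal.ofReal q := by
    rw [← ENNReal.ofReal_one]
    exact ENNReal.ofReal_le_ofReal hq1.le
  have hD := disc_memLp A (ENNReal.ofReal p)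
  set I : ℝ := ∫ t, ‖disc A t‖ ^ p ∂(cube d) with hI
  have hI0 : 0 ≤ I := integral_nonneg fun t => Real.rpow_nonneg (norm_nonneg _) _
  have hnorm : eLpNorm (disc A) (ENNReal.ofReal p) (cube d) = ENNReal.ofReal (I ^ (1 / p)) := by
    rw [hD.eLpNorm_eq_integral_rpow_norm hpe ENNReal.ofReal_ne_top, hpr, one_div]
  rw [hnorm]
  apply le_antisymm
  · unfold wce
    refine iSup_le fun g => iSup_le fun hg => iSup_le fun hg1 => ?_
    apply ENNReal.ofReal_le_ofReal
    rw [error_eq A (hg.integrable hq1e)]
    have h1 : (∫ t, ‖g t‖ ^ q ∂(cube d)) ^ (1 / q) ≤ 1 := by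
      rw [hg.eLpNorm_eq_integral_rpow_norm hqe ENNReal.ofReal_ne_top, hqr] at hg1
      rw [one_div]
      have := ENNReal.ofReal_le_one.1 hg1
      exact this
    calc |∫ t, g t * disc A t ∂(cube d)| ≤ ∫ t, ‖g t‖ * ‖disc A t‖ ∂(cube d) := by
          rw [← Real.norm_eq_abs]
          refine (norm_integral_le_integral_norm _).trans (le_of_eq ?_)
          exact integral_congr_ae (Filter.Eventually.of_forall fun t => norm_mul _ _)
      _ ≤ (∫ t, ‖g t‖ ^ q ∂(cube d)) ^ (1 / q) * I ^ (1 / p) :=
          integral_mul_norm_le_Lp_mul_Lq hpq.symm hg hD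
      _ ≤ 1 * I ^ (1 / p) := mul_le_mul_of_nonneg_right h1 (Real.rpow_nonneg hI0 _)
      _ = I ^ (1 / p) := one_mul _
  · rcases hI0.eq_or_lt with h0 | h0
    · rw [← h0, Real.zero_rpow (by positivity), ENNReal.ofReal_zero]
      exact zero_le
    · set g : (Fin d → ℝ) → ℝ := fun t =>
        I ^ (-(1 / q)) * (SignType.sign (disc A t) * |disc A t| ^ (p - 1)) with hg
      have hgm : Measurable g := by
        apply Measurable.const_mul
        apply Measurable.mul
        · have h2 : Measurable fun x : ℝ => ((SignType.sign x : SignType) : ℝ) := by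
            have h3 : (fun x : ℝ => ((SignType.sign x : SignType) : ℝ)) =
                fun x => if 0 < x then 1 else if x < 0 then -1 else 0 := by
              funext x
              rcases lt_trichotomy x 0 with h | h | h
              · rw [sign_neg h, if_neg (by linarith), if_pos h]
                simp
              · rw [h]
                simp
              · rw [sign_pos h, if_pos h]
                simp
            rw [h3]
            exact Measurable.ite measurableSet_Ioi measurable_const
              (Measurable.ite measurableSet_Iio measurable_const measurable_const)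
          exact h2.comp (disc_meas A)
        · exact (disc_meas A).abs.pow_const (p - 1)
      have habs : ∀ t, ‖g t‖ ≤ I ^ (-(1 / q)) * |disc A t| ^ (p - 1) := by
        intro t
        rw [hg]
        simp only [norm_mul, Real.norm_eq_abs]
        rw [abs_of_nonneg (Real.rpow_nonneg hI0 _),
          abs_of_nonneg (Real.rpow_nonneg (abs_nonneg _) (p - 1))]
        apply mul_le_mul_of_nonneg_left _ (Real.rpow_nonneg hI0 _)
        have h3 : |((SignType.sign (disc A t) : SignType) : ℝ)| ≤ 1 := by
          rcases lt_trichotomy (disc A t) 0 with h | h | h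
          · rw [sign_neg h]
            simp
          · rw [h]
            simp
          · rw [sign_pos h]
            simp
        calc _ ≤ 1 * |disc A t| ^ (p - 1) :=
              mul_le_mul_of_nonneg_right h3 (Real.rpow_nonneg (abs_nonneg _) _)
          _ = _ := one_mul _
      have hgb : ∀ᵐ t ∂(cube d), ‖g t‖ ≤ I ^ (-(1 / q)) * (1 + ∑ i, |A.a i|) ^ (p - 1) := by
        filter_upwards [disc_bdd A] with t ht
        refine (habs t).trans (mul_le_mul_of_nonneg_left ?_ (Real.rpow_nonneg hI0 _))
        rw [← Real.norm_eq_abs]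
        exact Real.rpow_le_rpow (norm_nonneg _) ht (by linarith)
      have hgL : MemLp g (ENNReal.ofReal q) (cube d) :=
        MemLp.of_bound hgm.aestronglyMeasurable _ hgb
      have hgq : ∫ t, ‖g t‖ ^ q ∂(cube d) ≤ 1 := by
        have h4 : ∀ t, ‖g t‖ ^ q ≤ I⁻¹ * ‖disc A t‖ ^ p := by
          intro t
          calc ‖g t‖ ^ q ≤ (I ^ (-(1 / q)) * |disc A t| ^ (p - 1)) ^ q :=
                Real.rpow_le_rpow (norm_nonneg _) (habs t) hq0.le
            _ = I⁻¹ * ‖disc A t‖ ^ p := by
                rw [Real.mul_rpow (Real.rpow_nonneg hI0 _) (Real.rpow_nonneg (abs_nonneg _) _),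
                  ← Real.rpow_mul hI0, ← Real.rpow_mul (abs_nonneg _), Real.norm_eq_abs]
                congr 1
                · rw [show -(1 / q) * q = -1 by field_simp, Real.rpow_neg_one]
                · congr 1
                  have := hpq.symm.sub_one_mul_conj
                  have h5 := hpq.sub_one_mul_conj
                  rw [h5]
        calc ∫ t, ‖g t‖ ^ q ∂(cube d) ≤ ∫ t, I⁻¹ * ‖disc A t‖ ^ p ∂(cube d) := by
              apply integral_mono
              · have := hgL.integrable_norm_rpow hqe ENNReal.ofReal_ne_top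
                rwa [hqr] at this
              · have := hD.integrable_norm_rpow hpe ENNReal.ofReal_ne_top
                rw [hpr] at this
                exact this.const_mul _
              · exact h4
          _ = I⁻¹ * I := integral_const_mul _ _
          _ = 1 := inv_mul_cancel₀ h0.ne'
      have hgn : eLpNorm g (ENNReal.ofReal q) (cube d) ≤ 1 := by
        rw [hgL.eLpNorm_eq_integral_rpow_norm hqe ENNReal.ofReal_ne_top, hqr,
          ENNReal.ofReal_le_one]
        exact Real.rpow_le_one (integral_nonneg fun t => Real.rpow_nonneg (norm_nonneg _) _) hgq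
          (by positivity)
      have hval : ∫ t, g t * disc A t ∂(cube d) = I ^ (1 / p) := by
        have h6 : ∀ t, g t * disc A t = I ^ (-(1 / q)) * ‖disc A t‖ ^ p := by
          intro t
          rw [hg]
          simp only
          rw [mul_assoc]
          congr 1
          rw [mul_right_comm, mul_comm (_ * disc A t)]
          rcases eq_or_ne (disc A t) 0 with h | h
          · rw [h]
            simp [hp0.ne']
          · have h7 : ((SignType.sign (disc A t) : SignType) : ℝ) * disc A t = |disc A t| :=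
              sign_mul_self _
            rw [h7, Real.norm_eq_abs, ← Real.rpow_add_one (abs_ne_zero.2 h)]
            congr 1
            ring
        simp_rw [h6]
        rw [integral_const_mul, ← hI]
        calc I ^ (-(1 / q)) * I = I ^ (-(1 / q)) * I ^ (1 : ℝ) := by rw [Real.rpow_one]
          _ = I ^ (-(1 / q) + 1) := (Real.rpow_add h0 _ _).symm
          _ = I ^ (1 / p) := by
            congr 1
            have := hpq.inv_add_inv_eq_one
            rw [one_div, one_div]
            linarith
      unfold wce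
      refine le_trans ?_ (le_iSup_of_le g (le_iSup_of_le hgL (le_iSup_of_le hgn le_rfl)))
      rw [error_eq A (hgL.integrable hq1e), hval,
        abs_of_nonneg (Real.rpow_nonneg hI0 _)]

end disc

end OwnM

end Pool.Agent.Lib.MP_e46b3e_an
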