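import Pool.Agent.Lib.MP_e46b3e_an.Own

/-!
# MP_e46b3e_an: reflection, initial error and the curse
-/

set_option autoImplicit false

open MeasureTheory
open scoped ENNReal

namespace Pool.Agent.Lib.MP_e46b3e_an

namespace OwnM

lemma reflect {d : ℕ} (F : (Fin d → ℝ) → ℝ) :
    ∫ t in Set.Icc (0 : Fin d → ℝ) 1, F (1 - t) = ∫ t in Set.Icc (0 : Fin d → ℝ) 1, F t := by
  have h1 : MeasurePreserving (fun t : Fin d → ℝ => 1 - t) volume volume :=
    Measure.measurePreserving_sub_left volume 1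
  have h2 : MeasurableEmbedding (fun t : Fin d → ℝ => 1 - t) :=
    (MeasurableEquiv.subLeft (1 : Fin d → ℝ)).measurableEmbedding
  have h3 := h1.setIntegral_preimage_emb h2 F (Set.Icc 0 1)
  rw [← h3]
  congr 2
  ext t
  constructor
  · rintro ⟨ha, hb⟩
    exact ⟨sub_nonneg.2 hb, sub_le_self _ ha⟩
  · rintro ⟨ha, hb⟩
    refine ⟨?_, sub_nonneg.1 ha⟩
    have h4 : (1 : Fin d → ℝ) - t ≤ 1 - 0 := by rw [sub_zero]; exact hb
    exact (sub_le_sub_iff_left 1).1 h4

lemma integral_disc {d N : ℕ} (A : Quad d N) (p : ℝ) :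
    ∫ t, ‖disc A t‖ ^ p ∂(cube d) = ∫ t in Set.Icc (0 : Fin d → ℝ) 1,
      |(∏ i, t i) - ∑ j, A.a j *
        Set.indicator {y : Fin d → ℝ | ∀ i, (1 - A.x j) i < y i} (fun _ => (1 : ℝ)) t| ^ p := by
  unfold cube
  rw [← reflect]
  apply integral_congr_ae
  have h1 : ∀ᵐ t ∂(volume : Measure (Fin d → ℝ)), ∀ j i, t i ≠ (1 - A.x j) i := by
    rw [ae_all_iff]
    intro j
    rw [ae_all_iff]
    intro i
    have h2 : (volume : Measure (Fin d → ℝ)) {f | f i = (1 - A.x j) i} = 0 := by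
      rw [volume_pi]
      exact Measure.pi_hyperplane _ i _
    rw [ae_iff]
    simpa using h2
  filter_upwards [ae_restrict_of_ae h1] with t ht
  rw [Real.norm_eq_abs]
  unfold disc
  have e1 : ∏ j, (1 - (1 - t) j) = ∏ j, t j := by
    refine Finset.prod_congr rfl fun j _ => ?_
    simp
  rw [e1]
  congr 3
  refine Finset.sum_congr rfl fun j _ => ?_
  congr 1
  have h3 : (1 - t ∈ Set.Iic (A.x j)) ↔ t ∈ {y : Fin d → ℝ | ∀ i, (1 - A.x j) i < y i} := by
    constructor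
    · intro h i
      have h4 : (1 - t) i ≤ A.x j i := h i
      have h5 := ht j i
      simp only [Pi.sub_apply, Pi.one_apply] at h4 h5 ⊢
      exact lt_of_le_of_ne (by linarith) (Ne.symm h5)
    · intro h i
      have h4 := h i
      simp only [Pi.sub_apply, Pi.one_apply] at h4 ⊢
      linarith
  by_cases h : t ∈ {y : Fin d → ℝ | ∀ i, (1 - A.x j) i < y i}
  · rw [Set.indicator_of_mem h, Set.indicator_of_mem (h3.2 h)]
  · rw [Set.indicator_of_notMem h, Set.indicator_of_notMem (fun h' => h (h3.1 h'))]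

lemma Z_eq {p : ℝ} (hp : 1 < p) : Core.Z p = (p + 1)⁻¹ := by
  unfold Core.Z Core.lam
  rw [← intervalIntegral.integral_of_le zero_le_one, integral_rpow (Or.inl (by linarith))]
  rw [Real.one_rpow, Real.zero_rpow (by linarith)]
  simp

lemma integral_prod_rpow {p : ℝ} (hp : 1 < p) (d : ℕ) :
    ∫ t in Set.Icc (0 : Fin d → ℝ) 1, |∏ i, t i| ^ p = e0 p d ^ p := by
  rw [Core.cube_measure]
  have h1 : ∫ t, |∏ i, t i| ^ p ∂(Core.Q d) = ∫ t, ∏ i, (t i) ^ p ∂(Core.Q d) := by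
    apply integral_congr_ae
    filter_upwards [Core.ae_pos d] with t ht
    rw [abs_of_pos (Finset.prod_pos fun i _ => (ht i).1),
      Real.finsetProd_rpow _ _ fun i _ => (ht i).1.le]
  rw [h1, Core.int_one, Z_eq hp]
  unfold e0
  rw [← Real.rpow_mul (by linarith), div_mul_cancel₀ _ (by linarith : p ≠ 0), Real.rpow_neg
    (by linarith), Real.rpow_natCast, inv_pow]

/-- the error of the zero algorithm is the initial error -/
lemma wce_zero {p q : ℝ} (hpq : p.HolderConjugate q) {d : ℕ} (A : Quad d 0) :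
    wce q A = ENNReal.ofReal (e0 p d) := by
  have hp1 : 1 < p := hpq.lt
  have hp0 : 0 < p := by linarith
  have he : 0 ≤ e0 p d := by unfold e0; exact Real.rpow_nonneg (by linarith) _
  rw [wce_eq A hpq, (disc_memLp A (ENNReal.ofReal p)).eLpNorm_eq_integral_rpow_norm
    (by simpa using hp0) ENNReal.ofReal_ne_top, ENNReal.toReal_ofReal hp0.le, integral_disc]
  simp only [Finset.univ_eq_empty, Finset.sum_empty, sub_zero]
  rw [integral_prod_rpow hp1, ← Real.rpow_mul he, mul_inv_cancel₀ hp0.ne', Real.rpow_one]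

lemma nodes {p q : ℝ} (hpq : p.HolderConjugate q) :
    ∃ C : ℝ, 1 < C ∧ ∀ (d : ℕ) (ε : ℝ), 0 < ε → ε ≤ 1 / 32 → ∀ (N : ℕ) (A : Quad d N),
      wce q A ≤ ENNReal.ofReal (ε * e0 p d) → 1 / 2 * C ^ d ≤ N := by
  have hp1 : 1 < p := hpq.lt
  have hp0 : 0 < p := by linarith
  obtain ⟨τ, hτ, h⟩ := Core.main p hp1
  refine ⟨1 + τ, by linarith, fun d ε hε hε' N A hA => ?_⟩
  have he : 0 ≤ e0 p d := by unfold e0; exact Real.rpow_nonneg (by linarith) _
  refine h d ε hε hε' N (fun j => 1 - A.x j) A.a ?_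
  rw [← integral_disc, integral_prod_rpow hp1, ← Real.mul_rpow hε.le he]
  rw [wce_eq A hpq, (disc_memLp A (ENNReal.ofReal p)).eLpNorm_eq_integral_rpow_norm
    (by simpa using hp0) ENNReal.ofReal_ne_top, ENNReal.toReal_ofReal hp0.le,
    ENNReal.ofReal_le_ofReal_iff (by positivity)] at hA
  have hI : 0 ≤ ∫ t, ‖disc A t‖ ^ p ∂(cube d) :=
    integral_nonneg fun t => Real.rpow_nonneg (norm_nonneg _) _
  have h1 := Real.rpow_le_rpow (Real.rpow_nonneg hI _) hA hp0.le
  rwa [← Real.rpow_mul hI, inv_mul_cancel₀ hp0.ne', Real.rpow_one] at h1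

end OwnM

end Pool.Agent.Lib.MP_e46b3e_an
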